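import Pool.Agent.K3h46.HP.Stm2

/-! Project HP (MP_868bb7_ag), brick NIL1: powers of the quadratic form have no squarefree part. -/

set_option autoImplicit false

open Finset

namespace Pool.Agent.K3h4.HP

open Pool.Agent.K3h46.HP

/-- the map on pairs -/
def fl {k n : ℕ} (f : Fin k → Fin n × Fin n) (q : Fin k × Fin 2) : Fin n :=
  if q.2 = 0 then (f q.1).1 else (f q.1).2

/-- the exponent of the monomial of `f` -/
noncomputable def mon {k n : ℕ} (f : Fin k → Fin n × Fin n) : Fin n →₀ ℕ :=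
  ∑ q : Fin k × Fin 2, Finsupp.single (fl f q) 1

lemma mon_eq {k n : ℕ} (f : Fin k → Fin n × Fin n) :
    mon f = ∑ i, (Finsupp.single (f i).1 1 + Finsupp.single (f i).2 1) := by
  unfold mon
  rw [Fintype.sum_prod_type]
  refine Finset.sum_congr rfl fun i _ => ?_
  rw [Fin.sum_univ_two]
  simp [fl]

lemma mon_apply {k n : ℕ} (f : Fin k → Fin n × Fin n) (u : Fin n) :
    mon f u = (univ.filter (fun q => fl f q = u)).card := by
  unfold mon
  rw [Finsupp.finset_sum_apply, Finset.card_filter]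
  refine Finset.sum_congr rfl fun q _ => ?_
  rw [Finsupp.single_apply]

lemma sq_apply {n : ℕ} (K : Finset (Fin n)) (u : Fin n) : K3h46.HP.sq K u = if u ∈ K then 1 else 0 := by
  unfold K3h46.HP.sq
  rw [Finsupp.finset_sum_apply]
  have h : ∀ v ∈ K, (Finsupp.single v 1 : Fin n →₀ ℕ) u = if u = v then 1 else 0 := by
    intro v _
    rw [Finsupp.single_apply]
    by_cases h : v = u
    · rw [if_pos h, if_pos h.symm]
    · rw [if_neg h, if_neg (fun h' => h h'.symm)]
  rw [Finset.sum_congr rfl h, Finset.sum_ite_eq]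

lemma inj_of {k n : ℕ} {f : Fin k → Fin n × Fin n} {K : Finset (Fin n)} (h : mon f = K3h46.HP.sq K) :
    Function.Injective (fl f) := by
  intro q q' hqq
  have h1 : mon f (fl f q) ≤ 1 := by
    rw [h, sq_apply]
    split_ifs <;> omega
  rw [mon_apply, Finset.card_le_one] at h1
  exact h1 q (by rw [Finset.mem_filter]; exact ⟨mem_univ _, rfl⟩) q'
    (by rw [Finset.mem_filter]; exact ⟨mem_univ _, hqq.symm⟩)

lemma mem_iff {k n : ℕ} {f : Fin k → Fin n × Fin n} {K : Finset (Fin n)} (h : mon f = K3h46.HP.sq K)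
    (u : Fin n) : u ∈ K ↔ ∃ q, fl f q = u := by
  constructor
  · intro hu
    have h1 : mon f u = 1 := by rw [h, sq_apply, if_pos hu]
    rw [mon_apply] at h1
    obtain ⟨q, hq⟩ := Finset.card_pos.1 (by omega : 0 < (univ.filter (fun q => fl f q = u)).card)
    exact ⟨q, (Finset.mem_filter.1 hq).2⟩
  · rintro ⟨q, rfl⟩
    by_contra hu
    have h1 : mon f (fl f q) = 0 := by rw [h, sq_apply, if_neg hu]
    rw [mon_apply, Finset.card_eq_zero] at h1
    have h2 : q ∈ (∅ : Finset (Fin k × Fin 2)) := by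
      rw [← h1, Finset.mem_filter]
      exact ⟨mem_univ _, rfl⟩
    exact absurd h2 (Finset.notMem_empty q)

lemma term (X : Powers) (w : X.A 2) {k n : ℕ} (f : Fin k → Fin n × Fin n) :
    ∏ i, (MvPolynomial.C (X.edge w (f i).1 (f i).2) *
      (MvPolynomial.X (f i).1 * MvPolynomial.X (f i).2) : MvPolynomial (Fin n) (X.A n)) =
    MvPolynomial.monomial (mon f) (∏ i, X.edge w (f i).1 (f i).2) := by
  rw [mon_eq, Finset.prod_mul_distrib, ← map_prod]
  have h : ∏ i, (MvPolynomial.X (f i).1 * MvPolynomial.X (f i).2 :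
      MvPolynomial (Fin n) (X.A n)) =
      MvPolynomial.monomial (∑ i, (Finsupp.single (f i).1 1 + Finsupp.single (f i).2 1)) 1 := by
    rw [MvPolynomial.monomial_sum_one]
    refine Finset.prod_congr rfl fun i _ => ?_
    rw [MvPolynomial.X, MvPolynomial.X, MvPolynomial.monomial_mul, one_mul]
  rw [h, MvPolynomial.C_mul_monomial, mul_one]

lemma fl_mem {k n : ℕ} {S : Finset (Fin n)} {f : Fin k → Fin n × Fin n}
    (hf : f ∈ Fintype.piFinset (fun _ : Fin k => S ×ˢ S)) (q : Fin k × Fin 2) : fl f q ∈ S := by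
  rw [Fintype.mem_piFinset] at hf
  have h := Finset.mem_product.1 (hf q.1)
  unfold fl
  split_ifs
  · exact h.1
  · exact h.2

/-- Brick NIL1 -/
theorem t_Nil1 : StmNil1 := by
  intro X w k hk n S K
  have hq : quad X w S = ∑ p ∈ S ×ˢ S, (MvPolynomial.C (X.edge w p.1 p.2) *
      (MvPolynomial.X p.1 * MvPolynomial.X p.2) : MvPolynomial (Fin n) (X.A n)) := by
    unfold quad
    rw [Finset.sum_product]
  have hpow : quad X w S ^ k = ∑ f ∈ Fintype.piFinset (fun _ : Fin k => S ×ˢ S),
      MvPolynomial.monomial (mon f) (∏ i, X.edge w (f i).1 (f i).2) := by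
    rw [hq]
    have h1 : ∀ a : MvPolynomial (Fin n) (X.A n), a ^ k = ∏ _i : Fin k, a := by
      intro a
      rw [Finset.prod_const, Finset.card_univ, Fintype.card_fin]
    rw [h1, Finset.prod_univ_sum]
    exact Finset.sum_congr rfl fun f _ => term X w f
  rw [hpow, MvPolynomial.coeff_sum]
  simp only [MvPolynomial.coeff_monomial]
  rw [← Finset.sum_filter]
  obtain ⟨P, hP⟩ : ∃ P : Finset (Fin k → Fin n × Fin n),
    P = (Fintype.piFinset (fun _ : Fin k => S ×ˢ S)).filter (fun f => mon f = K3h46.HP.sq K) := ⟨_, rfl⟩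
  rw [← hP]
  rcases P.eq_empty_or_nonempty with h0 | ⟨f0, hf0⟩
  · rw [h0, Finset.sum_empty]
  · have hf0' := hf0
    rw [hP, Finset.mem_filter] at hf0'
    obtain ⟨hf0S, hf0K⟩ := hf0'
    obtain ⟨g0, hg0⟩ : ∃ g0 : Fin (k * 2) → Fin n, g0 = fun j => fl f0 (finProdFinEquiv.symm j) :=
      ⟨_, rfl⟩
    have hginj : Function.Injective g0 := by
      rw [hg0]
      exact (inj_of hf0K).comp finProdFinEquiv.symm.injective
    have hgS : ∀ j, g0 j ∈ S := by
      intro j
      rw [hg0]
      exact fl_mem hf0S _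
    have hgK : ∀ u, u ∈ K ↔ ∃ j, g0 j = u := by
      intro u
      rw [mem_iff hf0K u, hg0]
      constructor
      · rintro ⟨q, hq⟩
        refine ⟨finProdFinEquiv q, ?_⟩
        simp only [Equiv.symm_apply_apply]
        exact hq
      · rintro ⟨j, hj⟩
        exact ⟨_, hj⟩
    -- the map of an equivalence
    obtain ⟨Φ, hΦ⟩ : ∃ Φ : (Fin k × Fin 2 ≃ Fin (k * 2)) → (Fin k → Fin n × Fin n),
      Φ = fun e i => (g0 (e (i, 0)), g0 (e (i, 1))) := ⟨_, rfl⟩
    have hfl : ∀ e q, fl (Φ e) q = g0 (e q) := by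
      rintro e ⟨i, a⟩
      rw [hΦ]
      unfold fl
      fin_cases a <;> simp
    have hΦmem : ∀ e, Φ e ∈ P := by
      intro e
      rw [hP, Finset.mem_filter]
      constructor
      · rw [Fintype.mem_piFinset]
        intro i
        rw [hΦ]
        exact Finset.mem_product.2 ⟨hgS _, hgS _⟩
      · rw [← hf0K]
        unfold mon
        simp only [hfl]
        rw [hg0]
        exact (e.trans finProdFinEquiv.symm).sum_comp (fun q => Finsupp.single (fl f0 q) 1)
    have hΦinj : Function.Injective Φ := by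
      intro e e' hee
      apply Equiv.ext
      intro q
      apply hginj
      rw [← hfl, ← hfl, hee]
    have hΦsurj : ∀ f ∈ P, ∃ e, Φ e = f := by
      intro f hf
      rw [hP, Finset.mem_filter] at hf
      obtain ⟨hfS, hfK⟩ := hf
      have h1 : ∀ q, ∃ j, g0 j = fl f q := fun q => (hgK _).1 ((mem_iff hfK _).2 ⟨q, rfl⟩)
      choose ψ hψ using h1
      have hψinj : Function.Injective ψ := by
        intro q q' hqq
        apply inj_of hfK
        rw [← hψ, ← hψ, hqq]
      have hψbij : Function.Bijective ψ := by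
        rw [Fintype.bijective_iff_injective_and_card]
        refine ⟨hψinj, ?_⟩
        simp
      refine ⟨Equiv.ofBijective ψ hψbij, ?_⟩
      funext i
      rw [hΦ]
      simp only [Equiv.ofBijective_apply, hψ]
      simp [fl]
    have hsum : ∑ e : Fin k × Fin 2 ≃ Fin (k * 2), ∏ i, X.edge w (g0 (e (i, 0))) (g0 (e (i, 1))) =
        ∑ f ∈ P, ∏ i, X.edge w (f i).1 (f i).2 := by
      refine Finset.sum_bij (fun e _ => Φ e) (fun e _ => hΦmem e)
        (fun e _ e' _ h => hΦinj h) (fun f hf => ?_) (fun e _ => ?_)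
      · obtain ⟨e, he⟩ := hΦsurj f hf
        exact ⟨e, mem_univ _, he⟩
      · rw [hΦ]
    rw [← hsum]
    have hpull : X.pull g0 (X.selfPower w k) =
        ∑ e : Fin k × Fin 2 ≃ Fin (k * 2), ∏ i, X.edge w (g0 (e (i, 0))) (g0 (e (i, 1))) := by
      unfold Powers.selfPower
      rw [map_sum]
      refine Finset.sum_congr rfl fun e _ => ?_
      rw [map_prod]
      exact Finset.prod_congr rfl fun i _ => pull_edge X w g0 _ _
    rw [← hpull, hk, map_zero]

end Pool.Agent.K3h4.HP
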